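import Mathlib

namespace Pool.Agent.Results.MP_c9b02e_lc.Q1

open Finset

/-- Possible values of `(W, R, S)`; its law is uniform on this set. -/
abbrev Tri (K M N : ℕ) := {t : Fin K × Finset (Fin K) × Finset (Fin K) //
  #t.2.1 = M ∧ #t.2.2 = N ∧ Disjoint t.2.1 t.2.2 ∧ t.1 ∉ t.2.1 ∧ t.1 ∉ t.2.2}

variable {K M N n : ℕ} {F Q A : Type} [Fintype F] [Fintype Q] [Fintype A] [DecidableEq A]

/-- `κ t q` is the probability of query `q` given `(W,R,S) = t`; `ans` is the server's answer.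
The conditions: `κ` is a kernel, privacy of `(W,R)`, recoverability. -/
def Valid (κ : Tri K M N → Q → ℝ) (ans : Q → (Fin K → Fin n → F) → A) : Prop :=
  (∀ t q, 0 ≤ κ t q) ∧ (∀ t, ∑ q, κ t q = 1) ∧
  (∀ q w r, ∑ t : Tri K M N with t.1.1 = w ∧ t.1.2.1 = r, κ t q / Fintype.card (Tri K M N) =
    (∑ t : Tri K M N with t.1.1 = w ∧ t.1.2.1 = r, (1 : ℝ) / Fintype.card (Tri K M N)) *
      ∑ t, κ t q / Fintype.card (Tri K M N)) ∧
  ∀ t q, κ t q ≠ 0 → ∀ x y, ans q x = ans q y → (∀ k ∈ t.1.2.1 ∪ t.1.2.2, x k = y k) → x t.1.1 = y t.1.1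

/-- Entropy (in nats) of the answer, the messages being uniform and independent of `(W,R,S,Q)`. -/
noncomputable def H (κ : Tri K M N → Q → ℝ) (ans : Q → (Fin K → Fin n → F) → A) : ℝ :=
  ∑ a, Real.negMulLog (∑ t, ∑ q, κ t q / Fintype.card (Tri K M N) *
    (#{x | ans q x = a} / Fintype.card (Fin K → Fin n → F)))

def act (π : Equiv.Perm (Fin K)) (t : Tri K M N) : Tri K M N :=
  ⟨(π t.1.1, t.1.2.1.map π.toEmbedding, t.1.2.2.map π.toEmbedding), by simpa using t.2⟩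

lemma tr (t u : Tri K M N) : ∃ ρ, act ρ t = u := by
  let f (t : Tri K M N) : Option (Fin M ⊕ Fin N) → Fin K := fun o =>
    o.elim t.1.1 (Sum.elim (t.1.2.1.orderEmbOfFin t.2.1) (t.1.2.2.orderEmbOfFin t.2.2.1))
  have i (t) : (f t).Injective := by
    have a := t.1.2.1.orderEmbOfFin_mem t.2.1
    have b := t.1.2.2.orderEmbOfFin_mem t.2.2.1
    have c := disjoint_left.1 t.2.2.2.1
    have d := t.2.2.2.2
    rintro (_ | x | x) (_ | y | y) h <;> simp [f] at h ⊢ <;> grind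
  obtain ⟨ρ, h⟩ := Equiv.Perm.exists_extending_pair _ _ (i t) (i u)
  have k {m} {r s : Finset (Fin K)} (a : #r = m) (b : #s = m)
      (e : ∀ x, ρ (r.orderEmbOfFin a x) = s.orderEmbOfFin b x) : r.map ρ.toEmbedding = s := by
    rw [← image_orderEmbOfFin_univ r a, ← image_orderEmbOfFin_univ s b, map_eq_image, image_image]
    exact image_congr fun x _ => e x
  exact ⟨ρ, Subtype.ext (Prod.ext (h none) (Prod.ext (k _ _ fun x => h (some (.inl x)))
    (k _ _ fun x => h (some (.inr x)))))⟩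

lemma side (w : Fin 9) (r : Finset (Fin 9)) (a : #r = 3 ∧ w ∉ r) : ∃ s, (#s = 3 ∧ Disjoint r s ∧ w ∉ s) ∧
    ∃ j < 3, (w : ℕ) / 3 ≠ j ∧ ∀ k : Fin 9, (k : ℕ) / 3 ≠ j → k = w ∨ k ∈ r ∪ s := by
  obtain ⟨j, b, c, d⟩ : ∃ j < 3, (w : ℕ) / 3 ≠ j ∧ #(univ.filter (fun k : Fin 9 => (k : ℕ) / 3 ≠ j) \ insert w r) ≤ 3 := by
    revert w r; decide +kernel
  obtain ⟨s, e, f, g⟩ := exists_subsuperset_card_eq (t := univ \ insert w r)
    (sdiff_subset_sdiff_left _ (subset_univ _)) d (by simp [card_univ_diff, a])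
  refine ⟨s, ⟨g, disjoint_right.2 fun x h k => by simpa [k] using f h, fun h => by simpa using f h⟩,
    j, b, c, fun k h => by_contra fun z => z (.inr (mem_union_right _ (e ?_)))⟩
  simp at z; simp [h, z]

lemma build (s : Fin K → Finset (Fin K) → Finset (Fin K))
    (h1 : ∀ w r, #r = M ∧ w ∉ r → #(s w r) = N ∧ Disjoint r (s w r) ∧ w ∉ s w r) (w : Fin K) (r : Finset (Fin K))
    (v : #r = M ∧ w ∉ r)
    (ans : Equiv.Perm (Fin K) → (Fin K → Fin n → F) → A)
    (h2 : ∀ π t, (act π t : Tri K M N).1.2.2 = s (act π t).1.1 (act π t).1.2.1 → ∀ x y, ans π x = ans π y →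
      (∀ k ∈ t.1.2.1 ∪ t.1.2.2, x k = y k) → x t.1.1 = y t.1.1) (c : ℝ)
    (f : ∀ π a, (#{x | ans π x = a} / Fintype.card (Fin K → Fin n → F) : ℝ) = c) :
    ∃ κ : Tri K M N → _, Valid κ ans ∧ H κ ans = Fintype.card A * Real.negMulLog c := by
  classical
  let G (t : Tri K M N) := t.1.2.2 = s t.1.1 t.1.2.1
  let o : Tri K M N := ⟨(w, r, s w r), v.1, (h1 _ _ v).1, (h1 _ _ v).2.1, v.2, (h1 _ _ v).2.2⟩
  let C : ℝ := #{π | G (act π o)}
  have C0 : 0 < C := Nat.cast_pos.2 (card_pos.2 ⟨.refl _, by simp [G, act, o]⟩)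
  let κ (t : Tri K M N) (π) : ℝ := if G (act π t) then 1 / C else 0
  have k1 (t) : ∑ π, κ t π = 1 := by
    obtain ⟨ρ, rfl⟩ := tr o t
    have : #{π | G (act π (act ρ o))} = #{π | G (act π o)} :=
      card_equiv (Equiv.mulRight ρ) fun π => by simp [G, act, map_map]; rfl
    rw [← sum_filter, sum_const, this, nsmul_eq_mul, mul_one_div_cancel C0.ne']
  have : Nonempty (Tri K M N) := ⟨o⟩
  have T0 : (Fintype.card (Tri K M N) : ℝ) ≠ 0 := Nat.cast_ne_zero.2 Fintype.card_ne_zero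
  have tot : ∑ t, ∑ π, κ t π / Fintype.card (Tri K M N) = 1 := by
    simp only [← sum_div, k1, sum_const, card_univ, nsmul_one, div_self T0]
  refine ⟨κ, ⟨fun t π => by simp only [κ]; positivity, k1, fun π w r => ?_,
    fun t π h => h2 π t (not_not.1 fun c => h (if_neg c))⟩, by simp only [H, f, ← sum_mul, tot]; simp⟩
  have J (π w r) : ∑ t : Tri K M N with t.1.1 = w ∧ t.1.2.1 = r, κ t π / Fintype.card (Tri K M N) =
      if #r = M ∧ w ∉ r then 1 / C / Fintype.card (Tri K M N) else 0 := by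
    split_ifs with c
    · have c' : #(r.map π.toEmbedding) = M ∧ π w ∉ r.map π.toEmbedding := by simpa using c
      obtain ⟨p, q, u⟩ := h1 _ _ c'
      rw [sum_eq_single (act π.symm ⟨(π w, r.map π.toEmbedding, s _ _), c'.1, p, q, c'.2, u⟩)]
      · simp [κ, G, act, map_map]
      · rintro t ht z
        obtain ⟨rfl, rfl⟩ := (mem_filter.1 ht).2
        rw [div_eq_zero_iff]
        refine .inl (if_neg fun y => z (Subtype.ext ?_))
        simp only [G, act] at y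
        simp [act, ← y, map_map]
      · simp [act, map_map]
    · exact sum_eq_zero fun t ht => by
        obtain ⟨rfl, rfl⟩ := (mem_filter.1 ht).2
        exact (c ⟨t.2.1, t.2.2.2.2.1⟩).elim
  have P (π) := (sum_fiberwise univ (fun t : Tri K M N => (t.1.1, t.1.2.1))
    fun t => κ t π / Fintype.card (Tri K M N)).symm
  simp only [Prod.ext_iff, J] at P
  rw [sum_comm] at tot
  simp only [P, sum_const, nsmul_eq_mul] at tot
  rw [sum_congr rfl fun t _ => congrArg (· / _) (k1 t).symm]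
  simp only [sum_div]
  rw [sum_comm]
  simp only [J, P, sum_const, nsmul_eq_mul]
  rw [mul_right_comm, tot, one_mul]

def g : (Fin 9 → Fin 1 → ZMod 2) →+ (Fin 1 → ZMod 2) × (Fin 1 → ZMod 2) :=
  ⟨⟨fun y => (y 0 + y 1 + y 2 + y 3 + y 4 + y 5, y 3 + y 4 + y 5 + y 6 + y 7 + y 8), rfl⟩,
    fun x y => by simp; constructor <;> ring⟩

lemma rec9 (j) (c : j < 3) (u : Fin 9) (d : (u : ℕ) / 3 ≠ j) (z) (a : g z = 0)
    (e : ∀ k : Fin 9, (k : ℕ) / 3 ≠ j → k = u ∨ z k = 0) : z u = 0 := by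
  have a1 := congrArg (·.1) a
  have a2 := congrArg (·.2) a
  have a3 : z 0 + z 1 + z 2 = z 6 + z 7 + z 8 := by
    simp [g] at a1 a2; linear_combination a1 - a2
  interval_cases j <;> fin_cases u <;> simp [Fin.forall_fin_succ, g] at d e a1 a2 a3 ⊢ <;> simp_all

theorem result : ∃ K M N : ℕ, 2 ≤ M ∧ 2 ≤ N ∧ M + N < K ∧ ∃ (F : Type) (_ : Field F) (_ : Fintype F)
    (n : ℕ) (Q A : Type) (_ : Fintype Q) (_ : Fintype A) (_ : DecidableEq A) (κ : Tri K M N → Q → ℝ)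
    (ans : Q → (Fin K → Fin n → F) → A), 1 ≤ n ∧ Valid κ ans ∧ 0 < H κ ans ∧
      (1 : ℝ) / (min (K - M - N) ⌈(K : ℚ) / (N + 1)⌉₊ : ℕ) < n * Real.log (Fintype.card F) / H κ ans := by
  choose! s h1 h2 using side
  obtain ⟨κ, v, e⟩ := build s h1 0 {1, 2, 3} (by decide) (fun π x => g (x ∘ π.symm)) (fun π t h x y a b => by
    obtain ⟨j, c, d, e⟩ := h2 _ _ ⟨(act π t).2.1, (act π t).2.2.2.2.1⟩
    rw [← h] at e
    simpa [act, sub_eq_zero] using rec9 j c _ d (x ∘ π.symm - y ∘ π.symm) (by rw [map_sub, a, sub_self])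
      fun k i => (e k i).imp_right fun m => sub_eq_zero.2 (b _ (by simpa [act] using m))) (1 / 4) fun π a => by
    have s (a) : a ∈ Set.range g := ⟨![a.1, 0, 0, 0, 0, 0, 0, 0, a.2], by simp [g]⟩
    have b := card_eq_sum_card_fiberwise (s := univ) (t := univ) (f := g) (by simp)
    rw [sum_congr rfl fun b _ => AddMonoidHom.card_fiber_eq_of_mem_range g (s b) (s a)] at b
    rw [card_equiv (t := {x | g x = a}) (π.arrowCongr (.refl _)) fun x => by simp; rfl, ← card_univ, b]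
    have : (#{x | g x = a} : ℝ) ≠ 0 := by
      obtain ⟨x, rfl⟩ := s a
      exact Nat.cast_ne_zero.2 (card_pos.2 ⟨x, by simp⟩).ne'
    simp; field_simp
  replace e : _ = 2 * Real.log 2 := e.trans (by
    simp [Real.negMulLog, show (4 : ℝ) = 2 ^ 2 by norm_num])
  have l := Real.log_pos one_lt_two
  refine ⟨9, 3, 3, by norm_num, by norm_num, by norm_num, ZMod 2, inferInstance, inferInstance, 1, _, _,
    inferInstance, inferInstance, inferInstance, κ, _, le_rfl, v, by rw [e]; positivity, ?_⟩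
  rw [e, show ⌈((9 : ℕ) : ℚ) / ((3 : ℕ) + 1)⌉₊ = 3 by norm_num [Nat.ceil_eq_iff]]
  simp; field_simp; norm_num

end Pool.Agent.Results.MP_c9b02e_lc.Q1
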